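import Mathlib
import Pool.Agent.W223.AC.Key

/-!
# Local heights at all places (copy of a part of `Pool.Agent.W223.AC.StmsP`)
-/

set_option autoImplicit false

namespace Pool.Agent.TH905.VF.AC

open Polynomial IsDedekindDomain NumberField
open Pool.Agent.W223.VD (cnt)
open Pool.Agent.W125.CV (fv)
open Pool.Agent.W223.AC (tt psi IntEl StmtEX StmtHTG StmtNORM StmtMULT StmtLOC StmtGROW StmtDIM StmtFINQ)

/-- LOCP: size of elements of `I ^ m` at all places near the zeros of `I`. -/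
def StmtLOCP : Prop :=
  ∀ (A : Type) [CommRing A] [Algebra ℚ[X] A] [Module.Finite ℚ[X] A] (a : ℚ) (s : ℕ)
    (z : Fin (s + 1) → A), z 0 = tt A - algebraMap ℚ[X] A (C a) →
    ∀ (m : ℕ) (g : A), g ∈ Ideal.span (Set.range z) ^ m →
    ∃ (n : ℕ) (K : ℝ), n ≠ 0 ∧ 1 ≤ K ∧ ∀ (L : Type) [Field L] [NumberField L] (φ : A →+* L)
      (μ : ℝ), 0 ≤ μ → μ ≤ 1 →
      (∀ v : HeightOneSpectrum (𝓞 L), (∀ i, fv v (φ (z i)) ≤ μ) →
        fv v (φ g) * fv v (n : L) ≤ μ ^ m) ∧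
      ∀ w : InfinitePlace L, (∀ i, w (φ (z i)) ≤ μ) → w (φ g) ≤ K * μ ^ m

/-- SUMP: the sum of the local inequalities. -/
def StmtSUMP : Prop :=
  ∀ (L : Type) [Field L] [NumberField L] (y : L) (n m : ℕ) (K : ℝ)
    (f : HeightOneSpectrum (𝓞 L) → ℝ) (h : InfinitePlace L → ℝ), y ≠ 0 → n ≠ 0 → 1 ≤ m → 1 ≤ K →
    (∀ v, 0 ≤ f v) → (∀ v, f v ≠ 0 → fv v y * fv v (n : L) ≤ Real.exp (-(m * f v))) →
    (∀ w, 0 ≤ h w) → (∀ w, h w ≠ 0 → w y ≤ K * Real.exp (-(m * h w))) →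
    {v | f v ≠ 0}.Finite ∧ (m : ℝ) * (∑ᶠ v, f v + ∑ w : InfinitePlace L, w.mult * h w) ≤
      Real.log (Height.mulHeight₁ y) + Module.finrank ℚ L * (Real.log K + Real.log n)

end Pool.Agent.TH905.VF.AC
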