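import Mathlib
import Pool.Agent.TH905.VF.AC.StmsQ

/-!
# The height of a closed subscheme of a curve
-/

set_option autoImplicit false

namespace Pool.Agent.TH905.VF.AC

open Polynomial IsDedekindDomain NumberField
open Pool.Agent.W125.CV (fv)
open Pool.Agent.W223.AC (tt psi IntEl StmtEX StmtHTG StmtNORM StmtMULT StmtLOC StmtGROW StmtDIM StmtFINQ val_nat_eq_one)

section lam

variable {A : Type} [CommRing A] {s : ℕ} (z : Fin (s + 1) → A) {L : Type} [Field L]
  [NumberField L] (φ : A →+* L)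

/-- the local height at a finite place: `max (0, - log max_i |z_i(P)|_v)` -/
noncomputable def lamF (v : HeightOneSpectrum (𝓞 L)) : ℝ :=
  max 0 (-Real.log (⨆ i, fv v (φ (z i))))

/-- the local height at an infinite place -/
noncomputable def lamI (w : InfinitePlace L) : ℝ :=
  max 0 (-Real.log (⨆ i, w (φ (z i))))

lemma lamF_nonneg (v : HeightOneSpectrum (𝓞 L)) : 0 ≤ lamF z φ v := le_max_left _ _

lemma lamI_nonneg (w : InfinitePlace L) : 0 ≤ lamI z φ w := le_max_left _ _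

omit [NumberField L] in
lemma sup_aux (g : Fin (s + 1) → ℝ) (h0 : 0 < g 0) (h : max 0 (-Real.log (⨆ i, g i)) ≠ 0) :
    ∀ i, g i ≤ Real.exp (-(max 0 (-Real.log (⨆ i, g i)))) := by
  have hb : BddAbove (Set.range g) := Set.finite_range g |>.bddAbove
  have h1 : g 0 ≤ ⨆ i, g i := le_ciSup hb 0
  have h2 : 0 < ⨆ i, g i := h0.trans_le h1
  intro i
  have h3 : max 0 (-Real.log (⨆ i, g i)) = -Real.log (⨆ i, g i) := by
    rcases le_total 0 (-Real.log (⨆ i, g i)) with h4 | h4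
    · exact max_eq_right h4
    · exact absurd (max_eq_left h4) h
  rw [h3, neg_neg, Real.exp_log h2]
  exact le_ciSup hb i

end lam

/-- NBP: the height of a closed subscheme. -/
def StmtNBP : Prop :=
  ∀ (A : Type) [CommRing A] [IsDedekindDomain A] [Algebra ℚ A] [Algebra ℚ[X] A]
    [IsScalarTower ℚ ℚ[X] A] [Module.Finite ℚ[X] A] [FaithfulSMul ℚ[X] A]
    (a : ℚ) (s : ℕ) (z : Fin (s + 1) → A), z 0 = tt A - algebraMap ℚ[X] A (C a) →
    ∀ ε : ℝ, 0 < ε → ∃ (C : ℝ) (G : ℚ[X]), 0 ≤ C ∧ G ≠ 0 ∧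
      ∀ (L : Type) [Field L] [NumberField L] (φ : A →+* L), aeval (φ (tt A)) G ≠ 0 →
        φ (z 0) ≠ 0 →
        {v : HeightOneSpectrum (𝓞 L) | lamF z φ v ≠ 0}.Finite ∧
        (∑ᶠ v : HeightOneSpectrum (𝓞 L), lamF z φ v) +
          ∑ w : InfinitePlace L, (w.mult : ℝ) * lamI z φ w ≤
          ((Module.finrank ℚ (A ⧸ Ideal.span (Set.range z)) : ℝ) / Module.finrank ℚ[X] A + ε) *
            Real.log (Height.mulHeight₁ (φ (tt A))) + Module.finrank ℚ L * C

theorem nbp (hEX : StmtEX) (hLP : StmtLOCP) (hH : StmtHTG) (hS : StmtSUMP) (hN : StmtNORM) :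
    StmtNBP := by
  classical
  intro A _ _ _ _ _ _ _ a s z hz ε hε
  obtain ⟨ω, hω, hex⟩ := hEX A
  have hN0 : 0 < Module.finrank ℚ[X] A := by
    have : Module.IsTorsionFree ℚ[X] A := by infer_instance
    exact Module.finrank_pos
  have hI : Ideal.span (Set.range z) ≠ ⊥ := by
    intro h
    rw [Ideal.span_eq_bot] at h
    have h1 := h (z 0) ⟨0, rfl⟩
    rw [hz, tt, ← map_sub, map_eq_zero_iff _ (FaithfulSMul.algebraMap_injective ℚ[X] A)] at h1
    exact X_sub_C_ne_zero a h1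
  set n := Module.finrank ℚ (A ⧸ Ideal.span (Set.range z)) with hn
  obtain ⟨c, hc⟩ := hH A (Module.finrank ℚ[X] A) ω hω
  obtain ⟨m', hm'⟩ := exists_nat_gt ((c : ℝ) / ε)
  obtain ⟨m, hmd⟩ : ∃ m, m = m' + 1 := ⟨_, rfl⟩
  obtain ⟨D, hDd⟩ : ∃ D, D = m * n / Module.finrank ℚ[X] A := ⟨_, rfl⟩
  have hD : m * n < Module.finrank ℚ[X] A * (D + 1) := by
    rw [hDd]
    exact Nat.lt_mul_div_succ _ hN0
  obtain ⟨p, hp1, hp2, hp3⟩ := hex _ hI m D hD
  obtain ⟨C, hC0, hC⟩ := hc D p hp1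
  obtain ⟨M, K, hM0, hK1, hM⟩ := hLP A a s z hz m _ hp2
  obtain ⟨G, hG0, hG⟩ := hN A _ hp3
  have hK0 : 0 ≤ Real.log K := Real.log_nonneg hK1
  have hM1 : 0 ≤ Real.log (M : ℝ) := Real.log_natCast_nonneg M
  refine ⟨C + (Real.log K + Real.log M), G, by linarith, hG0, ?_⟩
  intro L _ _ φ hφ hz0
  have hne := hG L φ hφ
  have hm1 : 1 ≤ m := by omega
  obtain ⟨hf, h1⟩ := hS L _ M m K (fun v => lamF z φ v) (fun w => lamI z φ w) hne hM0 hm1 hK1
    (fun v => lamF_nonneg z φ v)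
    (by
      intro v hv
      have h2 := sup_aux (fun i => fv v (φ (z i))) ((fv v).pos hz0) hv
      have h3 := (hM L φ (Real.exp (-(lamF z φ v))) (Real.exp_nonneg _) (by
        rw [Real.exp_le_one_iff]
        linarith [lamF_nonneg z φ v])).1 v h2
      rw [← Real.exp_nat_mul] at h3
      have h4 : (m : ℝ) * -(lamF z φ v) = -(m * lamF z φ v) := by ring
      rw [h4] at h3
      exact h3)
    (fun w => lamI_nonneg z φ w)
    (by
      intro w hw
      have h2 := sup_aux (fun i => w (φ (z i))) ((InfinitePlace.pos_iff).mpr hz0) hw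
      have h3 := (hM L φ (Real.exp (-(lamI z φ w))) (Real.exp_nonneg _) (by
        rw [Real.exp_le_one_iff]
        linarith [lamI_nonneg z φ w])).2 w h2
      rw [← Real.exp_nat_mul] at h3
      have h4 : (m : ℝ) * -(lamI z φ w) = -(m * lamI z φ w) := by ring
      rw [h4] at h3
      exact h3)
  refine ⟨hf, ?_⟩
  have h2 := hC L φ
  have hm0 : (0 : ℝ) < m := by
    rw [hmd]; positivity
  have hh : 0 ≤ Real.log (Height.mulHeight₁ (φ (tt A))) :=
    Real.log_nonneg (Height.one_le_mulHeight₁ _)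
  have hL0 : (0 : ℝ) ≤ Module.finrank ℚ L := Nat.cast_nonneg _
  have h3 : (D : ℝ) ≤ m * n / Module.finrank ℚ[X] A := by
    rw [hDd]
    refine Nat.cast_div_le.trans ?_
    push_cast
    exact le_refl _
  have h4 : (c : ℝ) ≤ ε * m := by
    rw [div_lt_iff₀ hε] at hm'
    have : (m : ℝ) = m' + 1 := by rw [hmd]; push_cast; ring
    rw [this]
    nlinarith
  have h5 : (D : ℝ) + c ≤ m * ((n : ℝ) / Module.finrank ℚ[X] A + ε) := by
    have : (m : ℝ) * ((n : ℝ) / Module.finrank ℚ[X] A + ε) = m * n / Module.finrank ℚ[X] A + ε * m := by ring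
    rw [this]
    linarith
  have h6 : ((D : ℝ) + c) * Real.log (Height.mulHeight₁ (φ (tt A))) ≤
      m * ((n : ℝ) / Module.finrank ℚ[X] A + ε) * Real.log (Height.mulHeight₁ (φ (tt A))) :=
    mul_le_mul_of_nonneg_right h5 hh
  have hm1 : (1 : ℝ) ≤ m := by rw [hmd]; push_cast; linarith [Nat.cast_nonneg (α := ℝ) m']
  have h7 : (Module.finrank ℚ L : ℝ) * (C + (Real.log K + Real.log M)) ≤
      m * (Module.finrank ℚ L * (C + (Real.log K + Real.log M))) := by
    have : 0 ≤ (Module.finrank ℚ L : ℝ) * (C + (Real.log K + Real.log M)) := by positivity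
    nlinarith
  refine le_of_mul_le_mul_left ?_ hm0
  rw [mul_add (m : ℝ) (((n : ℝ) / _ + ε) * _) _, ← mul_assoc]
  have h8 : (Module.finrank ℚ L : ℝ) * (C + (Real.log K + Real.log M)) =
    Module.finrank ℚ L * C + Module.finrank ℚ L * (Real.log K + Real.log M) := by ring
  linarith

end Pool.Agent.TH905.VF.AC
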