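import Mathlib
import Pool.Agent.TH905.VF.AC.StmsQ
import Pool.Agent.W125.CV.HT

set_option autoImplicit false

namespace Pool.Agent.TH905.VF.AC.SUMP

open NumberField IsDedekindDomain Height
open Pool.Agent.W125.CV (fv fv_eq fv_support_finite max_support_finite height_sum prod_sum)

theorem t : Pool.Agent.TH905.VF.AC.StmtSUMP := by
  classical
  intro L _ _ y n m K f h hy hn hm hK hf0 hf hh0 hh
  have hnL : (n : L) ≠ 0 := by exact_mod_cast hn
  have hfy : ∀ v : HeightOneSpectrum (𝓞 L), 0 < fv v y := fun v => (fv v).pos_iff.2 hy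
  have hfn : ∀ v : HeightOneSpectrum (𝓞 L), 0 < fv v (n : L) := fun v => (fv v).pos_iff.2 hnL
  have hfn1 : ∀ v : HeightOneSpectrum (𝓞 L), fv v (n : L) ≤ 1 := by
    intro v
    have := Pool.Agent.W125.CV.fv_int v (n : ℤ)
    simpa using this
  have hm0 : (0 : ℝ) < m := by exact_mod_cast (show 0 < m by omega)
  have hfin : {v : HeightOneSpectrum (𝓞 L) | f v ≠ 0}.Finite := by
    refine (fv_support_finite (mul_ne_zero hy hnL)).subset fun v hv h1 => ?_
    have h2 := hf v hv
    have h3 : fv v (y * n) = 1 := h1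
    rw [map_mul] at h3
    rw [h3] at h2
    have h4 : 0 < f v := lt_of_le_of_ne (hf0 v) (Ne.symm hv)
    have h5 : Real.exp (-(m * f v)) < 1 := by
      rw [Real.exp_lt_one_iff]
      have := mul_pos hm0 h4
      linarith
    linarith
  refine ⟨hfin, ?_⟩
  set T : Finset (HeightOneSpectrum (𝓞 L)) := hfin.toFinset ∪ ((fv_support_finite hy).toFinset ∪
    ((fv_support_finite hnL).toFinset ∪ (max_support_finite y).toFinset)) with hT
  have hT0 : ∀ v, f v ≠ 0 → v ∈ T := fun v hv =>
    Finset.mem_union_left _ ((Set.Finite.mem_toFinset _).2 hv)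
  have hT1 : ∀ v, fv v y ≠ 1 → v ∈ T := fun v hv =>
    Finset.mem_union_right _ (Finset.mem_union_left _ ((Set.Finite.mem_toFinset _).2 hv))
  have hT2 : ∀ v, fv v (n : L) ≠ 1 → v ∈ T := fun v hv =>
    Finset.mem_union_right _ (Finset.mem_union_right _
      (Finset.mem_union_left _ ((Set.Finite.mem_toFinset _).2 hv)))
  have hT3 : ∀ v, max (fv v y) 1 ≠ 1 → v ∈ T := fun v hv =>
    Finset.mem_union_right _ (Finset.mem_union_right _
      (Finset.mem_union_right _ ((Set.Finite.mem_toFinset _).2 hv)))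
  have h1 := height_sum y T hT3
  have h2 := prod_sum hy T hT1
  have h3 := prod_sum hnL T hT2
  have hwn : ∀ w : InfinitePlace L, w (n : L) = n := by
    intro w
    rw [← InfinitePlace.norm_embedding_eq w, map_natCast, Complex.norm_natCast]
  have hmult : ∑ w : InfinitePlace L, (w.mult : ℝ) = Module.finrank ℚ L := by
    exact_mod_cast InfinitePlace.sum_mult_eq (K := L)
  simp only [hwn] at h3
  rw [← Finset.sum_mul, hmult] at h3
  have h4 : ∑ᶠ v, f v = ∑ v ∈ T, f v :=
    finsum_eq_sum_of_support_subset _ fun v hv => hT0 v hv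
  rw [h4, mul_add, Finset.mul_sum, Finset.mul_sum]
  have h5 : ∑ v ∈ T, (m : ℝ) * f v ≤ ∑ v ∈ T, (Real.log (max (fv v y) 1) - Real.log (fv v y) -
      Real.log (fv v (n : L))) := by
    refine Finset.sum_le_sum fun v _ => ?_
    have h6 : 0 ≤ Real.log (max (fv v y) 1) := Real.log_nonneg (le_max_right _ _)
    have h7 : Real.log (fv v y) ≤ Real.log (max (fv v y) 1) :=
      Real.log_le_log (hfy v) (le_max_left _ _)
    have h8 : Real.log (fv v (n : L)) ≤ 0 := Real.log_nonpos (hfn v).le (hfn1 v)
    by_cases h9 : f v = 0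
    · rw [h9, mul_zero]
      linarith
    · have h10 := Real.log_le_log (mul_pos (hfy v) (hfn v)) (hf v h9)
      rw [Real.log_exp, Real.log_mul (hfy v).ne' (hfn v).ne'] at h10
      linarith
  have h6 : ∑ w : InfinitePlace L, (m : ℝ) * ((w.mult : ℝ) * h w) ≤
      ∑ w : InfinitePlace L, ((w.mult : ℝ) * Real.log K +
        ((w.mult : ℝ) * Real.log (max (w y) 1) - (w.mult : ℝ) * Real.log (w y))) := by
    refine Finset.sum_le_sum fun w _ => ?_
    have hwy : 0 < w y := w.1.pos_iff.2 hy
    have h7 : 0 ≤ Real.log (max (w y) 1) := Real.log_nonneg (le_max_right _ _)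
    have h8 : Real.log (w y) ≤ Real.log (max (w y) 1) := Real.log_le_log hwy (le_max_left _ _)
    have hK0 : 0 ≤ Real.log K := Real.log_nonneg hK
    have h9 : (m : ℝ) * h w ≤ Real.log K + (Real.log (max (w y) 1) - Real.log (w y)) := by
      by_cases h10 : h w = 0
      · rw [h10, mul_zero]
        linarith
      · have h11 := Real.log_le_log hwy (hh w h10)
        rw [Real.log_mul (by linarith) (Real.exp_ne_zero _), Real.log_exp] at h11
        linarith
    have h10 := mul_le_mul_of_nonneg_left h9 (Nat.cast_nonneg (α := ℝ) w.mult)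
    calc (m : ℝ) * ((w.mult : ℝ) * h w) = w.mult * (m * h w) := by ring
      _ ≤ _ := h10
      _ = _ := by ring
  rw [Finset.sum_add_distrib, ← Finset.sum_mul, hmult, Finset.sum_sub_distrib] at h6
  rw [Finset.sum_sub_distrib, Finset.sum_sub_distrib] at h5
  linarith

end Pool.Agent.TH905.VF.AC.SUMP
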